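import Mathlib
import Pool.Agent.Lib.MP_f1379f_gt.EQ.EQA
import Pool.Agent.Lib.MP_f1379f_gt.EQ.EQC

/-!
# The E8 cell is the smallest Voronoi cell of a unit ball packing in dimension 8, and the only one

Every packing `X` of unit balls in 8-dimensional space is allowed, and every centre `x` of it.  The
Voronoi cell of `x` has at least the volume 16 of the Voronoi cell of the lattice E8, and it has
that volume only if it is congruent to the E8 cell, equivalently, if `x` has the 240 neighbours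
which it has in E8.
-/

set_option autoImplicit false

namespace Pool.Agent.Results.MP_f1379f_gt.MinimalCell

open MeasureTheory

/-- `X` is the set of centres of a packing of unit balls in 8-dimensional space. -/
def Packing (X : Set (EuclideanSpace ℝ (Fin 8))) : Prop :=
  ∀ x ∈ X, ∀ x' ∈ X, x ≠ x' → 2 ≤ dist x x'

/-- The Voronoi cell of `x`. -/
def cell (X : Set (EuclideanSpace ℝ (Fin 8))) (x : EuclideanSpace ℝ (Fin 8)) :
    Set (EuclideanSpace ℝ (Fin 8)) :=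
  {y | ∀ x' ∈ X, dist y x ≤ dist y x'}

/-- The lattice E8, scaled to minimal distance 2 (Construction A): the integer vectors whose
reduction mod 2 is a word of the extended Hamming code of length 8. -/
def E8 : Set (EuclideanSpace ℝ (Fin 8)) :=
  {r | ∃ n : Fin 8 → ℤ, 2 ∣ n 0 + n 1 + n 2 + n 3 ∧ 2 ∣ n 0 + n 1 + n 4 + n 5 ∧
    2 ∣ n 0 + n 2 + n 4 + n 6 ∧ 2 ∣ ∑ i, n i ∧ ∀ i, r i = (n i : ℝ)}

/-- Lebesgue volume. -/
noncomputable def vol (K : Set (EuclideanSpace ℝ (Fin 8))) : ENNReal := volume K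

/-- `K` and `L` are congruent. -/
def Congruent (K L : Set (EuclideanSpace ℝ (Fin 8))) : Prop :=
  ∃ f : EuclideanSpace ℝ (Fin 8) ≃ᵢ EuclideanSpace ℝ (Fin 8), f '' L = K

/-- Some isometry which takes 0 to `x` takes all vectors of norm 2 of E8 into `X`. -/
def HasE8Shell (X : Set (EuclideanSpace ℝ (Fin 8))) (x : EuclideanSpace ℝ (Fin 8)) : Prop :=
  ∃ f : EuclideanSpace ℝ (Fin 8) ≃ᵢ EuclideanSpace ℝ (Fin 8),
    f 0 = x ∧ ∀ r ∈ E8, ‖r‖ = 2 → f r ∈ X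

theorem E8_eq : E8 = Pool.Agent.Lib.MP_f1379f_gt.EV.E8 := by
  ext r
  constructor
  · rintro ⟨n, h0, h1, h2, h3, h4⟩
    exact ⟨n, ⟨h0, h1, h2, h3⟩, by ext i; exact h4 i⟩
  · rintro ⟨n, ⟨h0, h1, h2, h3⟩, rfl⟩
    exact ⟨n, h0, h1, h2, h3, fun i => rfl⟩

/-- An isometry is a linear isometry followed by a translation. -/
theorem affine (f : EuclideanSpace ℝ (Fin 8) ≃ᵢ EuclideanSpace ℝ (Fin 8)) :
    ∃ A : EuclideanSpace ℝ (Fin 8) ≃ₗᵢ[ℝ] EuclideanSpace ℝ (Fin 8), ∀ y, f y = f 0 + A y := by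
  refine ⟨f.toRealAffineIsometryEquiv.linearIsometryEquiv, fun y => ?_⟩
  have h := f.toRealAffineIsometryEquiv.map_vadd (0 : EuclideanSpace ℝ (Fin 8)) y
  rw [vadd_eq_add, add_zero, vadd_eq_add, f.coeFn_toRealAffineIsometryEquiv] at h
  rw [h, add_comm]

/-- A linear isometry followed by a translation. -/
noncomputable def motion (x : EuclideanSpace ℝ (Fin 8))
    (A : EuclideanSpace ℝ (Fin 8) ≃ₗᵢ[ℝ] EuclideanSpace ℝ (Fin 8)) :
    EuclideanSpace ℝ (Fin 8) ≃ᵢ EuclideanSpace ℝ (Fin 8) :=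
  A.toIsometryEquiv.trans (IsometryEquiv.addLeft x)

theorem motion_apply (x : EuclideanSpace ℝ (Fin 8))
    (A : EuclideanSpace ℝ (Fin 8) ≃ₗᵢ[ℝ] EuclideanSpace ℝ (Fin 8))
    (y : EuclideanSpace ℝ (Fin 8)) : motion x A y = x + A y := rfl

theorem result :
    Packing E8 ∧ vol (cell E8 0) = 16 ∧
    ∀ X, Packing X → ∀ x ∈ X,
      vol (cell E8 0) ≤ vol (cell X x) ∧
      (vol (cell X x) = vol (cell E8 0) ↔ Congruent (cell X x) (cell E8 0)) ∧
      (vol (cell X x) = vol (cell E8 0) ↔ HasE8Shell X x) := by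
  unfold Congruent HasE8Shell vol
  rw [E8_eq]
  have h16 : volume (cell Pool.Agent.Lib.MP_f1379f_gt.EV.E8 0) = 16 :=
    Pool.Agent.Lib.MP_f1379f_gt.EV.EQCM.vol_E8
  refine ⟨Pool.Agent.Lib.MP_f1379f_gt.EV.EQCM.packing_E8, h16, fun X hX x hx => ?_⟩
  have hcopy : ∀ A : EuclideanSpace ℝ (Fin 8) ≃ₗᵢ[ℝ] EuclideanSpace ℝ (Fin 8),
      (∀ r ∈ Pool.Agent.Lib.MP_f1379f_gt.EV.E8, ‖r‖ = 2 → x + A r ∈ X) →
      cell X x = (fun y => x + A y) '' cell Pool.Agent.Lib.MP_f1379f_gt.EV.E8 0 := fun A hA =>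
    Pool.Agent.Lib.MP_f1379f_gt.EV.EQCM.cell_copy X hX x hx A fun r hr => hA r hr.1 hr.2
  have hvol : ∀ f : EuclideanSpace ℝ (Fin 8) ≃ᵢ EuclideanSpace ℝ (Fin 8),
      f '' cell Pool.Agent.Lib.MP_f1379f_gt.EV.E8 0 = cell X x →
      volume (cell X x) = 16 := fun f hf => by
    obtain ⟨A, hA⟩ := affine f
    have h1 : (fun y => f 0 + A y) '' cell Pool.Agent.Lib.MP_f1379f_gt.EV.E8 0 = cell X x := by
      rw [← hf]
      exact Set.image_congr fun y _ => (hA y).symm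
    rw [← h1]
    exact (Pool.Agent.Lib.MP_f1379f_gt.EV.EQCM.vol_motion (f 0) A _).trans h16
  have hex : volume (cell X x) = 16 →
      ∃ A : EuclideanSpace ℝ (Fin 8) ≃ₗᵢ[ℝ] EuclideanSpace ℝ (Fin 8),
        ∀ r ∈ Pool.Agent.Lib.MP_f1379f_gt.EV.E8, ‖r‖ = 2 → x + A r ∈ X := fun h => by
    obtain ⟨A, hA⟩ := Pool.Agent.Lib.MP_f1379f_gt.FV.cell_eq X hX x hx h.le
    exact ⟨A, fun r h1 h2 => hA r ⟨h1, h2⟩⟩
  rw [h16]
  refine ⟨Pool.Agent.Lib.MP_f1379f_gt.FV.cell_ge X hX x hx, ⟨fun h => ?_, ?_⟩, ⟨fun h => ?_, ?_⟩⟩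
  · obtain ⟨A, hA⟩ := hex h
    exact ⟨motion x A, (hcopy A hA).symm⟩
  · rintro ⟨f, hf⟩
    exact hvol f hf
  · obtain ⟨A, hA⟩ := hex h
    refine ⟨motion x A, ?_, fun r hr h2 => hA r hr h2⟩
    rw [motion_apply, map_zero, add_zero]
  · rintro ⟨f, hf0, hf⟩
    obtain ⟨A, hA⟩ := affine f
    refine hvol (motion x A) (hcopy A fun r hr h2 => ?_).symm
    rw [← hf0, ← hA]
    exact hf r hr h2

end Pool.Agent.Results.MP_f1379f_gt.MinimalCell
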