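import Mathlib
import Pool.Agent.Lib.MP_f1379f_gt.EQ.EQC

/-!
# The E8 Voronoi cell is a strict local minimum, without any closeness to E8 assumed

Every packing `X` of unit balls in 8-dimensional space is allowed, and every centre `p` of `X` which
has at least 240 further centres within distance `2 + ε` (240 is the kissing number).  The Voronoi
cell of `p` then has volume at least 16, the volume of the E8 cell; more precisely at least 16 plus
a constant times the distance between the neighbours of `p` and a copy of the 240 minimal vectors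
of E8, and the volume is 16 exactly if `p` has the 240 neighbours it has in E8.
-/

set_option autoImplicit false

namespace Pool.Agent.Results.MP_f1379f_gt.StrictLocalMinimum

open MeasureTheory

/-- `X` is the set of centres of a packing of unit balls in 8-dimensional space. -/
def Packing (X : Set (EuclideanSpace ℝ (Fin 8))) : Prop :=
  ∀ x ∈ X, ∀ x' ∈ X, x ≠ x' → 2 ≤ dist x x'

/-- The Voronoi cell of `p`. -/
def cell (X : Set (EuclideanSpace ℝ (Fin 8))) (p : EuclideanSpace ℝ (Fin 8)) :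
    Set (EuclideanSpace ℝ (Fin 8)) :=
  {y | ∀ x ∈ X, dist y p ≤ dist y x}

/-- The 240 minimal vectors of the lattice E8, scaled to minimal distance 2: the lattice consists of
the integer vectors `n` whose reduction mod 2 is a word of the extended Hamming code of length 8,
and its minimal vectors are those of squared norm 4. -/
def minimalVectors : Set (EuclideanSpace ℝ (Fin 8)) :=
  {r | ∃ n : Fin 8 → ℤ, 2 ∣ n 0 + n 1 + n 2 + n 3 ∧ 2 ∣ n 0 + n 1 + n 4 + n 5 ∧
    2 ∣ n 0 + n 2 + n 4 + n 6 ∧ 2 ∣ ∑ i, n i ∧ ∑ i, n i ^ 2 = 4 ∧ ∀ i, r i = (n i : ℝ)}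

theorem mem_shell (r : EuclideanSpace ℝ (Fin 8)) :
    r ∈ Pool.Agent.Lib.MP_f1379f_gt.EV.shell ↔ r ∈ minimalVectors := by
  unfold Pool.Agent.Lib.MP_f1379f_gt.EV.shell Pool.Agent.Lib.MP_f1379f_gt.EV.E8
    Pool.Agent.Lib.MP_f1379f_gt.EV.InL Pool.Agent.Lib.MP_f1379f_gt.EV.vec minimalVectors
  simp only [Set.mem_setOf_eq]
  constructor
  · rintro ⟨⟨n, hn, rfl⟩, hr⟩
    refine ⟨n, hn.1, hn.2.1, hn.2.2.1, hn.2.2.2, ?_, fun i => rfl⟩
    have h2 := congrArg (fun t : ℝ => t ^ 2) hr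
    simp only [EuclideanSpace.norm_sq_eq] at h2
    have h3 : ((∑ i, n i ^ 2 : ℤ) : ℝ) = 4 := by
      push_cast
      have : ∀ i : Fin 8, ((n i : ℝ)) ^ 2 = ‖(n i : ℝ)‖ ^ 2 := fun i => by
        rw [Real.norm_eq_abs, sq_abs]
      rw [Finset.sum_congr rfl fun i _ => this i]
      rw [h2]; norm_num
    exact_mod_cast h3
  · rintro ⟨n, h0, h1, h2, h3, h4, hr⟩
    have hre : r = WithLp.toLp 2 fun i => (n i : ℝ) := by
      ext i; exact hr i
    refine ⟨⟨n, ⟨h0, h1, h2, h3⟩, hre⟩, ?_⟩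
    have h5 : ‖r‖ ^ 2 = 4 := by
      rw [EuclideanSpace.norm_sq_eq]
      have : ∀ i : Fin 8, ‖r i‖ ^ 2 = ((n i : ℝ)) ^ 2 := fun i => by
        rw [hr i, Real.norm_eq_abs, sq_abs]
      rw [Finset.sum_congr rfl fun i _ => this i]
      exact_mod_cast h4
    have h6 : (0 : ℝ) ≤ ‖r‖ := norm_nonneg _
    nlinarith

theorem result :
    ∃ ε c : ℝ, 0 < ε ∧ 0 < c ∧
      ∀ X : Set (EuclideanSpace ℝ (Fin 8)), Packing X → ∀ p ∈ X,
        240 ≤ {x | x ∈ X ∧ x ≠ p ∧ dist x p ≤ 2 + ε}.encard →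
          (16 ≤ volume (cell X p)) ∧
          (∃ A : EuclideanSpace ℝ (Fin 8) ≃ₗᵢ[ℝ] EuclideanSpace ℝ (Fin 8),
            ∀ r ∈ minimalVectors, ∃ x ∈ X,
              ENNReal.ofReal (16 + c * dist x (p + A r)) ≤ volume (cell X p)) ∧
          (volume (cell X p) = 16 ↔
            ∃ A : EuclideanSpace ℝ (Fin 8) ≃ₗᵢ[ℝ] EuclideanSpace ℝ (Fin 8),
              ∀ r ∈ minimalVectors, p + A r ∈ X) := by
  obtain ⟨ε, c, hε, hc, h⟩ := Pool.Agent.Lib.MP_f1379f_gt.EV.All.hFIN.main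
  have heq := Pool.Agent.Lib.MP_f1379f_gt.EV.All.hFIN.eq
  refine ⟨ε, c, hε, hc, fun X hX p hp hN => ?_⟩
  obtain ⟨A, hA⟩ := h X hX p hp hN
  have hA' : ∀ r ∈ minimalVectors, ∃ x ∈ X,
      ENNReal.ofReal (16 + c * dist x (p + A r)) ≤ volume (cell X p) := fun r hr =>
    hA r ((mem_shell r).2 hr)
  have hne : ∃ r : EuclideanSpace ℝ (Fin 8), r ∈ minimalVectors := by
    refine ⟨WithLp.toLp 2 fun i => ((![2, 0, 0, 0, 0, 0, 0, 0] : Fin 8 → ℤ) i : ℝ),
      ![2, 0, 0, 0, 0, 0, 0, 0], ?_, ?_, ?_, ?_, ?_, fun i => rfl⟩ <;> decide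
  have h16 : 16 ≤ volume (cell X p) := by
    obtain ⟨r, hr⟩ := hne
    obtain ⟨x, _, hx⟩ := hA' r hr
    refine le_trans ?_ hx
    have : (16 : ENNReal) = ENNReal.ofReal 16 := by norm_num
    rw [this]
    exact ENNReal.ofReal_le_ofReal (by nlinarith [dist_nonneg (x := x) (y := p + A r)])
  refine ⟨h16, ⟨A, hA'⟩, ⟨fun hv => ⟨A, fun r hr => ?_⟩, ?_⟩⟩
  · obtain ⟨x, hx, hxv⟩ := hA' r hr
    rw [hv] at hxv
    have h2 : (16 + c * dist x (p + A r)) ≤ 16 := by
      have h3 : (16 : ENNReal) = ENNReal.ofReal 16 := by norm_num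
      rw [h3] at hxv
      exact (ENNReal.ofReal_le_ofReal_iff (by norm_num)).1 hxv
    have h4 : dist x (p + A r) = 0 := by
      have := dist_nonneg (x := x) (y := p + A r)
      nlinarith
    rw [← dist_eq_zero.1 h4]
    exact hx
  · rintro ⟨B, hB⟩
    exact heq X hX p hp B fun r hr => hB r ((mem_shell r).1 hr)

end Pool.Agent.Results.MP_f1379f_gt.StrictLocalMinimum
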